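import Pool.Agent.NH83.DE.Stm

/-! Project DE, job DE-2: the convolution identity of the Bernoulli numbers (helper89). -/

set_option autoImplicit false

open PowerSeries

namespace Pool.Agent.NH83.DE

namespace BEa

/-- `B_n / n!` -/
noncomputable def be (n : ℕ) : ℚ := bernoulli n / n.factorial

lemma coeff_be (n : ℕ) : coeff n (bernoulliPowerSeries ℚ) = be n := by
  unfold bernoulliPowerSeries be
  rw [coeff_mk]
  rfl

lemma be_zero : be 0 = 1 := by
  unfold be
  rw [bernoulli_zero]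
  norm_num

lemma be_odd {n : ℕ} (h : Odd n) (h1 : 1 < n) : be n = 0 := by
  unfold be
  rw [bernoulli_eq_zero_of_odd h h1, zero_div]

/-- the differential equation -/
lemma ode : (PowerSeries.derivative ℚ) (bernoulliPowerSeries ℚ) * X +
    bernoulliPowerSeries ℚ * (X + bernoulliPowerSeries ℚ) = bernoulliPowerSeries ℚ := by
  have h := bernoulliPowerSeries_mul_exp_sub_one ℚ
  have h1 := congrArg (PowerSeries.derivative ℚ) h
  rw [Derivation.leibniz, map_sub, derivative_exp, derivative_X, derivative_one, sub_zero,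
    smul_eq_mul, smul_eq_mul] at h1
  linear_combination (bernoulliPowerSeries ℚ) * h1 -
    ((PowerSeries.derivative ℚ) (bernoulliPowerSeries ℚ) + bernoulliPowerSeries ℚ) * h

/-- the recursion for the coefficients -/
lemma conv (n : ℕ) : be (n + 1) * (n + 1) + be n +
    ∑ i ∈ Finset.range (n + 2), be i * be (n + 1 - i) = be (n + 1) := by
  have h := congrArg (coeff (n + 1)) ode
  rw [mul_add, map_add, map_add, coeff_succ_mul_X, coeff_succ_mul_X, coeff_derivative, coeff_be,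
    coeff_be, coeff_mul, Finset.Nat.sum_antidiagonal_eq_sum_range_succ_mk] at h
  simp only [coeff_be] at h
  rw [← add_assoc] at h
  exact h

lemma sum_even (f : ℕ → ℚ) (h : ∀ a, Odd a → f a = 0) (j : ℕ) :
    ∑ a ∈ Finset.range (2 * j + 1), f a = ∑ i ∈ Finset.range (j + 1), f (2 * i) := by
  induction j with
  | zero => simp
  | succ j ih =>
    rw [show 2 * (j + 1) + 1 = 2 * j + 1 + 1 + 1 by ring, Finset.sum_range_succ,
      Finset.sum_range_succ, ih, h (2 * j + 1) ⟨j, rfl⟩, add_zero, Finset.sum_range_succ _ (j + 1)]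
    rfl

/-- Euler's convolution identity -/
lemma euler {j : ℕ} (hj : 2 ≤ j) :
    ∑ i ∈ Finset.Ico 1 j, be (2 * i) * be (2 * (j - i)) = -(2 * (j : ℚ) + 1) * be (2 * j) := by
  have h := conv (2 * j - 1)
  rw [show 2 * j - 1 + 1 = 2 * j by omega, show 2 * j - 1 + 2 = 2 * j + 1 by omega,
    be_odd ⟨j - 1, by omega⟩ (by omega : 1 < 2 * j - 1), sum_even] at h
  · rw [Finset.sum_range_succ, Finset.range_eq_Ico, Finset.sum_eq_sum_Ico_succ_bot (by omega)] at h
    have e1 : ((2 * j - 1 : ℕ) : ℚ) + 1 = 2 * j := by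
      have : 2 * j - 1 + 1 = 2 * j := by omega
      exact_mod_cast this
    rw [e1, mul_zero, Nat.sub_zero, Nat.sub_self, be_zero, zero_add] at h
    have e2 : ∑ i ∈ Finset.Ico 1 j, be (2 * i) * be (2 * (j - i)) =
        ∑ i ∈ Finset.Ico 1 j, be (2 * i) * be (2 * j - 2 * i) :=
      Finset.sum_congr rfl fun i _ => by rw [Nat.mul_sub]
    rw [e2]
    linear_combination h
  · intro a ha
    rcases Nat.lt_or_ge 1 a with h1 | h1
    · rw [be_odd ha h1, zero_mul]
    · have h2 : a = 1 := by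
        obtain ⟨r, hr⟩ := ha
        omega
      rw [h2, be_odd ⟨j - 1, by omega⟩ (by omega : 1 < 2 * j - 1), mul_zero]

lemma eu_eq (j : ℕ) : eu j = (-1 : ℚ) ^ (j + 1) * 2 ^ (2 * j - 1) * be (2 * j) * 6 ^ j := by
  unfold eu be
  ring

end BEa

open BEa in
/-- DE-2 -/
theorem t_BE : S_BE := by
  intro j hj
  have h1 : ∀ i ∈ Finset.Ico 1 j, eu i * eu (j - i) =
      (-1 : ℚ) ^ j * 2 ^ (2 * j - 2) * 6 ^ j * (be (2 * i) * be (2 * (j - i))) := by
    intro i hi
    rw [Finset.mem_Ico] at hi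
    obtain ⟨k, rfl⟩ : ∃ k, j = i + (k + 1) := ⟨j - i - 1, by omega⟩
    obtain ⟨l, rfl⟩ : ∃ l, i = l + 1 := ⟨i - 1, by omega⟩
    rw [eu_eq, eu_eq, show l + 1 + (k + 1) - (l + 1) = k + 1 by omega,
      show 2 * (l + 1) - 1 = 2 * l + 1 by omega, show 2 * (k + 1) - 1 = 2 * k + 1 by omega,
      show 2 * (l + 1 + (k + 1)) - 2 = 2 * l + 2 * k + 2 by omega]
    ring
  rw [Finset.sum_congr rfl h1, ← Finset.mul_sum, euler hj, eu_eq]
  obtain ⟨k, rfl⟩ : ∃ k, j = k + 1 := ⟨j - 1, by omega⟩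
  rw [show 2 * (k + 1) - 2 = 2 * k by omega, show 2 * (k + 1) - 1 = 2 * k + 1 by omega]
  ring

end Pool.Agent.NH83.DE
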