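import Pool.Agent.NH83.DE.Stm

/-!
# DE-1: Euler's relations from the double shuffle relations of depth two
-/

set_option autoImplicit false

namespace Pool.Agent.NH83.DE

open Finset

namespace DSa

variable {A : Type} [CommRing A]

/-- the word `x ^ a y` -/
def xa (a : ℕ) : List Bool := List.replicate a false ++ [true]

/-- the sum of `g` over the shuffles of `x ^ a y` and `x ^ b y` -/
def T (g : List Bool → A) (a b : ℕ) : A := ((sh (xa a) (xa b)).map g).sum

theorem xa_zero : xa 0 = [true] := rfl

theorem xa_succ (a : ℕ) : xa (a + 1) = false :: xa a := rfl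

theorem T00 (g : List Bool → A) : T g 0 0 = 2 * g (true :: xa 0) := by
  unfold T
  rw [xa_zero]
  simp only [sh, List.map_append, List.map_cons, List.map_nil, List.sum_append, List.sum_cons,
    List.sum_nil]
  ring

theorem T0s (g : List Bool → A) (b : ℕ) :
    T g 0 (b + 1) = g (true :: xa (b + 1)) + T (fun w => g (false :: w)) 0 b := by
  unfold T
  rw [xa_zero, xa_succ, sh, sh]
  simp only [List.map_append, List.map_cons, List.map_nil, List.sum_append, List.sum_cons,
    List.sum_nil, List.map_map, add_zero]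
  rfl

theorem Ts0 (g : List Bool → A) (a : ℕ) :
    T g (a + 1) 0 = T (fun w => g (false :: w)) a 0 + g (true :: xa (a + 1)) := by
  unfold T
  rw [xa_zero, xa_succ, sh, sh]
  simp only [List.map_append, List.map_cons, List.map_nil, List.sum_append, List.sum_cons,
    List.sum_nil, List.map_map, add_zero]
  rfl

theorem Tss (g : List Bool → A) (a b : ℕ) :
    T g (a + 1) (b + 1) = T (fun w => g (false :: w)) a (b + 1) +
      T (fun w => g (false :: w)) (a + 1) b := by
  unfold T
  rw [xa_succ, xa_succ, sh]
  simp only [List.map_append, List.sum_append, List.map_map]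
  rfl

theorem sym (n : ℕ) : ∀ g : List Bool → A, T g n 0 = T g 0 n := by
  induction n with
  | zero => intro g; rfl
  | succ n ih =>
    intro g
    rw [Ts0, T0s, ih, add_comm]

theorem T0n (n : ℕ) : ∀ g : List Bool → A, T g 0 n =
    ∑ i ∈ range (n + 1), g (List.replicate i false ++ true :: xa (n - i)) +
      g (List.replicate n false ++ [true, true]) := by
  induction n with
  | zero =>
    intro g
    rw [T00]
    simp [xa_zero, two_mul]
  | succ n ih =>
    intro g
    rw [T0s, ih, Finset.sum_range_succ' _ (n + 1)]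
    simp only [Nat.add_sub_add_right, Nat.sub_zero, List.replicate_succ, List.cons_append,
      List.replicate_zero, List.nil_append]
    ring

theorem alt (g : List Bool → A) (n : ℕ) :
    ∑ a ∈ range (n + 1), (-1) ^ a * T g a (n - a) = (1 + (-1) ^ n) * g (true :: xa n) := by
  rcases n with _ | m
  · simp only [zero_add, range_one, sum_singleton, pow_zero, one_mul]
    rw [T00]
    ring
  · rw [Finset.sum_range_succ', Finset.sum_range_succ]
    have h1 : ∀ a ∈ range m, (-1 : A) ^ (a + 1) * T g (a + 1) (m + 1 - (a + 1)) =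
        (-1) ^ (a + 1) * T (fun w => g (false :: w)) (a + 1) (m - (a + 1)) -
          (-1) ^ a * T (fun w => g (false :: w)) a (m - a) := by
      intro a ha
      rw [mem_range] at ha
      obtain ⟨c, hc⟩ : ∃ c, m - a = c + 1 := ⟨m - a - 1, by omega⟩
      have e1 : m + 1 - (a + 1) = c + 1 := by omega
      have e2 : m - (a + 1) = c := by omega
      rw [e1, e2, hc, Tss]
      ring
    rw [Finset.sum_congr rfl h1, Finset.sum_range_sub
      (fun a => (-1 : A) ^ a * T (fun w => g (false :: w)) a (m - a))]
    have e3 : m + 1 - (m + 1) = 0 := by omega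
    have e4 : m + 1 - 0 = m + 1 := rfl
    rw [e3, e4, Ts0, T0s]
    simp only [Nat.sub_self, Nat.sub_zero, pow_zero, one_mul]
    ring

theorem word_one (a : ℕ) : word [a + 1] = xa a := rfl

theorem word_two (a b : ℕ) : word [a + 1, b + 1] = List.replicate a false ++ true :: xa b := rfl

theorem sgn (m : ℕ) : ∑ a ∈ range (2 * m + 1), (-1 : A) ^ a = 1 := by
  induction m with
  | zero => simp
  | succ m ih =>
    have e : 2 * (m + 1) + 1 = 2 * m + 1 + 1 + 1 := by ring
    rw [e, Finset.sum_range_succ, Finset.sum_range_succ, ih]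
    ring

end DSa

open DSa in
theorem t_DS : S_DS := by
  intro A _ φ hst hsh hho j hj
  obtain ⟨m, rfl⟩ : ∃ m, j = m + 1 := ⟨j - 1, by omega⟩
  have hm : 1 ≤ m := by omega
  set Z : A := φ (word [2 * (m + 1)]) with hZ
  set D : ℕ → A := fun a => φ (word [a + 1, 2 * m - a + 1]) with hD
  have hQ0 : T φ 0 (2 * m) = D 0 + D (2 * m) + Z := by
    have h := hho (2 * m + 1) (by omega)
    have e1 : D (2 * m) = φ (word [2 * m + 1, 1]) := by
      simp only [hD, Nat.sub_self, zero_add]
    rw [e1]
    exact h
  have hQ : ∀ a ∈ range (2 * m + 1), T φ a (2 * m - a) = D a + D (2 * m - a) + Z := by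
    intro a ha
    rw [mem_range] at ha
    rcases Nat.eq_zero_or_pos a with rfl | ha0
    · exact hQ0
    · rcases Nat.lt_or_ge a (2 * m) with h1 | h1
      · have h2 := hsh (a + 1) (2 * m - a + 1) (by omega) (by omega)
        have h3 := hst (a + 1) (2 * m - a + 1) (by omega) (by omega)
        have e1 : a + 1 + (2 * m - a + 1) = 2 * (m + 1) := by omega
        have e2 : 2 * m - (2 * m - a) = a := by omega
        rw [e1] at h3
        have h4 : T φ a (2 * m - a) = φ (word [a + 1]) * φ (word [2 * m - a + 1]) := h2.symm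
        rw [h4, h3]
        simp only [hD, e2, hZ]
      · have e1 : a = 2 * m := by omega
        rw [e1, Nat.sub_self, sym, hQ0]
        ring
  have hA : ∑ a ∈ range (2 * m + 1), D a = D 0 + Z := by
    have h1 := T0n (2 * m) φ
    rw [hQ0] at h1
    have h2 : ∑ i ∈ range (2 * m + 1), φ (List.replicate i false ++ true :: xa (2 * m - i)) =
        ∑ a ∈ range (2 * m + 1), D a := rfl
    have h3 : φ (List.replicate (2 * m) false ++ [true, true]) = D (2 * m) := by
      simp only [hD, Nat.sub_self, word_two]
      rfl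
    rw [h2, h3] at h1
    linear_combination -h1
  have hB : 2 * ∑ a ∈ range (2 * m + 1), (-1) ^ a * D a + Z = 2 * D 0 := by
    have h1 := alt φ (2 * m)
    have h2 : φ (true :: xa (2 * m)) = D 0 := rfl
    rw [h2, Even.neg_one_pow ⟨m, by ring⟩] at h1
    have h3 : ∑ a ∈ range (2 * m + 1), (-1) ^ a * T φ a (2 * m - a) =
        ∑ a ∈ range (2 * m + 1), ((-1) ^ a * D a + (-1) ^ a * D (2 * m - a) + (-1) ^ a * Z) :=
      Finset.sum_congr rfl fun a ha => by
        rw [hQ a ha]
        ring
    rw [h3, Finset.sum_add_distrib, Finset.sum_add_distrib, ← Finset.sum_mul, sgn] at h1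
    have h4 : ∑ a ∈ range (2 * m + 1), (-1 : A) ^ a * D (2 * m - a) =
        ∑ a ∈ range (2 * m + 1), (-1) ^ a * D a := by
      rw [← Finset.sum_range_reflect]
      refine Finset.sum_congr rfl fun a ha => ?_
      rw [mem_range] at ha
      have e1 : 2 * m + 1 - 1 - a = 2 * m - a := by omega
      have e2 : 2 * m - (2 * m - a) = a := by omega
      rw [e1, e2]
      have e3 : (-1 : A) ^ (2 * m - a) = (-1) ^ a := by
        have e4 : (-1 : A) ^ (2 * m - a) * (-1) ^ a = 1 := by
          rw [← pow_add, Nat.sub_add_cancel (by omega)]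
          exact Even.neg_one_pow ⟨m, by ring⟩
        have e5 : (-1 : A) ^ a * (-1) ^ a = 1 := by
          rw [← pow_add]
          exact Even.neg_one_pow ⟨a, rfl⟩
        calc (-1 : A) ^ (2 * m - a) = (-1) ^ (2 * m - a) * ((-1) ^ a * (-1) ^ a) := by
              rw [e5, mul_one]
          _ = (-1) ^ (2 * m - a) * (-1) ^ a * (-1) ^ a := by ring
          _ = (-1) ^ a := by rw [e4, one_mul]
      rw [e3]
    rw [h4] at h1
    linear_combination h1
  have hC : 4 * ∑ i ∈ range m, D (2 * i + 1) = 3 * Z := by
    have h1 : ∀ M : ℕ, ∑ a ∈ range (2 * M + 1), D a - ∑ a ∈ range (2 * M + 1), (-1) ^ a * D a =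
        2 * ∑ i ∈ range M, D (2 * i + 1) := by
      intro M
      induction M with
      | zero => simp
      | succ M ih =>
        have e : 2 * (M + 1) + 1 = 2 * M + 1 + 1 + 1 := by ring
        rw [e, Finset.sum_range_succ, Finset.sum_range_succ, Finset.sum_range_succ (fun a =>
          (-1 : A) ^ a * D a), Finset.sum_range_succ (fun a => (-1 : A) ^ a * D a),
          Finset.sum_range_succ (fun i => D (2 * i + 1)), mul_add, ← ih]
        have e1 : (-1 : A) ^ (2 * M + 1) = -1 := Odd.neg_one_pow ⟨M, rfl⟩
        have e2 : (-1 : A) ^ (2 * M + 1 + 1) = 1 := Even.neg_one_pow ⟨M + 1, by ring⟩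
        rw [e1, e2]
        ring
    have h2 := h1 m
    linear_combination (-2 : A) * h2 + 2 * hA - hB
  -- the products
  have hP : ∑ i ∈ Ico 1 (m + 1), φ (word [2 * i]) * φ (word [2 * (m + 1 - i)]) =
      ∑ i ∈ range m, (D (2 * i + 1) + D (2 * (m - 1 - i) + 1) + Z) := by
    rw [Finset.sum_Ico_eq_sum_range]
    refine Finset.sum_congr rfl fun i hi => ?_
    have hi' : i < m := mem_range.1 hi
    have e1 : 2 * (1 + i) = 2 * i + 1 + 1 := by ring
    have e2 : 2 * (m + 1 - (1 + i)) = 2 * m - (2 * i + 1) + 1 := by omega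
    have h3 := hst (2 * (1 + i)) (2 * (m + 1 - (1 + i))) (by omega) (by omega)
    have e3 : 2 * (1 + i) + 2 * (m + 1 - (1 + i)) = 2 * (m + 1) := by omega
    rw [e3] at h3
    rw [h3]
    have e4 : 2 * m - (2 * (m - 1 - i) + 1) + 1 = 2 * i + 1 + 1 := by omega
    have e5 : 2 * (m - 1 - i) + 1 + 1 = 2 * m - (2 * i + 1) + 1 := by omega
    simp only [hD, e4, e5, e1, e2, hZ]
  rw [hP, Finset.sum_add_distrib, Finset.sum_add_distrib,
    Finset.sum_range_reflect (fun i => D (2 * i + 1)) m, Finset.sum_const, card_range, nsmul_eq_mul]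
  push_cast
  linear_combination hC

end Pool.Agent.NH83.DE
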