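import Pool.Agent.NH83.DE.Stm
import Pool.Agent.NH83.EP.Main

/-!
# Euler's relations for solutions of the double shuffle equations (helper83)
-/

set_option autoImplicit false

namespace Pool.Agent.NH83.DE

open Finset
open Pool.Agent.TH507.WD (mz)
open Pool.Agent.Q217.MZ (mz_zr mz_two_val)

lemma mz_eu (j : ℕ) (hj : 1 ≤ j) : mz [2 * j] = eu j * mz [2] ^ j := by
  have h1 := (hasSum_zeta_nat (show j ≠ 0 by omega)).tsum_eq
  have h2 : mz [2 * j] = ∑' n : ℕ, 1 / (n : ℝ) ^ (2 * j) := by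
    rw [mz_zr, Pool.Agent.H337R2.zr]
    have h3 : Summable fun n : ℕ => 1 / (n : ℝ) ^ (2 * j) := (hasSum_zeta_nat (show j ≠ 0 by omega)).summable
    rw [h3.tsum_eq_zero_add]
    have h4 : (0 : ℝ) ^ (2 * j) = 0 := zero_pow (by omega)
    simp [h4]
  rw [eu, h2, h1, mz_two_val, div_pow]
  push_cast
  rw [← pow_mul]
  field_simp

lemma mz_two_ne : mz [2] ≠ 0 := by
  rw [mz_two_val]
  positivity

lemma eu_unique (j : ℕ) (hj : 1 ≤ j) (r : ℚ) (h : mz [2 * j] = r * mz [2] ^ j) : r = eu j := by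
  rw [mz_eu j hj] at h
  have h1 : mz [2] ^ j ≠ 0 := pow_ne_zero _ mz_two_ne
  have h2 := mul_right_cancel₀ h1 h
  exact_mod_cast h2.symm

lemma eu_one : eu 1 = 1 := by
  have h := mz_eu 1 le_rfl
  rw [mul_one, pow_one] at h
  have h1 : (eu 1 : ℝ) * mz [2] = 1 * mz [2] := by rw [one_mul]; exact h.symm
  exact_mod_cast mul_right_cancel₀ mz_two_ne h1

/-- Euler's relations -/
theorem euler (hDS : S_DS) (hBE : S_BE) {A : Type} [CommRing A] [Algebra ℚ A] (φ : List Bool → A)
    (h1 : ∀ r s, 2 ≤ r → 2 ≤ s → φ (word [r]) * φ (word [s]) =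
      φ (word [r, s]) + φ (word [s, r]) + φ (word [r + s]))
    (h2 : ∀ r s, 2 ≤ r → 2 ≤ s → φ (word [r]) * φ (word [s]) = ((sh (word [r]) (word [s])).map φ).sum)
    (h3 : ∀ r, 2 ≤ r → ((sh [true] (word [r])).map φ).sum =
      φ (word [1, r]) + φ (word [r, 1]) + φ (word [r + 1])) :
    ∀ j, 1 ≤ j → φ (word [2 * j]) = eu j • φ (word [2]) ^ j := by
  intro j
  induction j using Nat.strong_induction_on with
  | _ j ih =>
    intro hj
    rcases Nat.lt_or_ge 1 j with hj2 | hj2
    · have h4 := hDS A φ h1 h2 h3 j hj2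
      have h5 : ∑ i ∈ Finset.Ico 1 j, φ (word [2 * i]) * φ (word [2 * (j - i)]) =
          (∑ i ∈ Finset.Ico 1 j, eu i * eu (j - i)) • φ (word [2]) ^ j := by
        rw [sum_smul]
        refine sum_congr rfl fun i hi => ?_
        rw [mem_Ico] at hi
        rw [ih i hi.2 hi.1, ih (j - i) (by omega) (by omega), smul_mul_smul_comm, ← pow_add]
        congr 2
        omega
      rw [h5] at h4
      have h6 := hBE j hj2
      have e2 : ∀ x : A, (2 : ℚ) • x = 2 * x := by
        intro x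
        rw [Algebra.smul_def, map_ofNat]
      have e3 : (2 * (j : ℚ) + 1) • φ (word [2 * j]) = (2 * (j : A) + 1) * φ (word [2 * j]) := by
        rw [Algebra.smul_def, map_add, map_mul, map_ofNat, map_natCast, map_one]
      have h7 : (2 * (j : ℚ) + 1) • φ (word [2 * j]) =
          (2 * (j : ℚ) + 1) • (eu j • φ (word [2]) ^ j) := by
        rw [smul_smul, ← h6, mul_smul, e2, h4, e3]
      have h8 : (2 * (j : ℚ) + 1) ≠ 0 := by positivity
      exact (IsUnit.mk0 _ h8).smul_left_cancel.1 h7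
    · have : j = 1 := by omega
      subst this
      rw [eu_one, one_smul, pow_one, mul_one]

end Pool.Agent.NH83.DE
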