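import Mathlib

set_option autoImplicit false

/-!
# Euler's relations from the double shuffle relations: statements (helper83, MP_a57f33_nt)
-/

namespace Pool.Agent.NH83.DE

/-- the word `y_{k_1} ... y_{k_t}`, where `y_k = x ^ (k - 1) y`, `x = false`, `y = true` -/
def word : List ℕ → List Bool
  | [] => []
  | k :: l => List.replicate (k - 1) false ++ true :: word l

/-- the list of the shuffles of two words -/
def sh : List Bool → List Bool → List (List Bool)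
  | [], v => [v]
  | a :: u, [] => [a :: u]
  | a :: u, b :: v => (sh u (b :: v)).map (a :: ·) ++ (sh (a :: u) v).map (b :: ·)
termination_by u v => u.length + v.length

/-- DE-1.  Write `k = 2 j`, `n = k - 2`, `x ^ a y = word [a + 1]`.
(0) For every `g : List Bool → A` and every `n` put
`T g a b = ((sh (x ^ a y) (x ^ b y)).map g).sum`.  By the recursion of `sh` (first letter)
`T g (a + 1) (b + 1) = T (g ∘ (x ::)) a (b + 1) + T (g ∘ (x ::)) (a + 1) b`,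
`T g 0 (b + 1) = g (y x ^ (b + 1) y) + T (g ∘ (x ::)) 0 b`, `T g (a + 1) 0 = T (g ∘ (x ::)) a 0 + g (y x ^ (a + 1) y)`,
`T g 0 0 = 2 g (y y)`.  Hence, the terms with `x` in front cancel in pairs,
`∑ a ∈ range (n + 1), (-1) ^ a * T g a (n - a) = (1 + (-1) ^ n) * g (y x ^ n y)`.
(1) For `n` even the terms `a = 0`, `a = n` are `T g 0 n` each (`sh u v` and `sh v u` have the same sums), and
`T g 0 n = ∑ i ∈ range (n + 1), g (x ^ i y x ^ (n - i) y) + g (x ^ n y y)`.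
(2) With `Z(r, s) = φ (word [r, s])`, `Z r = φ (word [r])`: `hho` and (1) give
`∑ r ∈ Ico 2 k, Z(r, k - r) = Z k` (the term `Z(1, k - 1)` and one `Z(k - 1, 1)` cancel).
(3) `hsh` in (0): `∑ r ∈ Ico 2 (k - 1), (-1) ^ r Z r Z (k - r) = 2 Z k + 2 Z(k - 1, 1)`; with `hst`
`2 ∑ r ∈ Ico 2 (k - 1), (-1) ^ r Z(r, k - r) + Z k = 2 Z k + 2 Z(k - 1, 1)`, so
`2 ∑ r ∈ Ico 2 k, (-1) ^ r Z(r, k - r) = Z k`; add twice (2): `4 ∑_{r even} Z(r, k - r) = 3 Z k`.
(4) `hst` for `r = 2 i`: `2 ∑ i ∈ Ico 1 j, Z (2 i) Z (k - 2 i) = 4 ∑_{r even} Z(r, k - r) + 2 (j - 1) Z k = (2 j + 1) Z k`. -/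
def S_DS : Prop := ∀ (A : Type) [CommRing A] (φ : List Bool → A),
  (∀ r s, 2 ≤ r → 2 ≤ s → φ (word [r]) * φ (word [s]) =
    φ (word [r, s]) + φ (word [s, r]) + φ (word [r + s])) →
  (∀ r s, 2 ≤ r → 2 ≤ s → φ (word [r]) * φ (word [s]) = ((sh (word [r]) (word [s])).map φ).sum) →
  (∀ r, 2 ≤ r → ((sh [true] (word [r])).map φ).sum =
    φ (word [1, r]) + φ (word [r, 1]) + φ (word [r + 1])) →
  ∀ j : ℕ, 2 ≤ j → 2 * ∑ i ∈ Finset.Ico 1 j, φ (word [2 * i]) * φ (word [2 * (j - i)]) =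
    (2 * (j : A) + 1) * φ (word [2 * j])

/-- `ζ(2 j) / ζ(2) ^ j` -/
noncomputable def eu (j : ℕ) : ℚ :=
  (-1 : ℚ) ^ (j + 1) * 2 ^ (2 * j - 1) * bernoulli (2 * j) / (2 * j).factorial * 6 ^ j

/-- DE-2.  In `PowerSeries ℚ` let `b = bernoulliPowerSeries ℚ`, `e = PowerSeries.exp ℚ`:
`b * (e - 1) = X` (Mathlib); derivative: `b' * (e - 1) + b * e = 1`; times `b`: `b' * X + b * (X + b) = b`.
Coefficient of `X ^ n`, `n = 2 j ≥ 4` (`bernoulli (n - 1) = 0`; odd indices in the convolution vanish except `1`, whose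
partner is `bernoulli (n - 1) = 0`): `∑ i ∈ range (j + 1), B_{2 i} / (2 i)! * B_{2 (j - i)} / (2 (j - i))! = (1 - n) B_n / n!`;
without the terms `i = 0` and `i = j` the sum is `-(n + 1) B_n / n!`. -/
def S_BE : Prop := ∀ j : ℕ, 2 ≤ j →
  2 * ∑ i ∈ Finset.Ico 1 j, eu i * eu (j - i) = (2 * (j : ℚ) + 1) * eu j

end Pool.Agent.NH83.DE
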